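import Pool.Agent.Q71.RL.Stage
import Pool.Agent.Helper287.MB.Weier

open MeasureTheory Complex Filter Topology Set Metric
open scoped ENNReal

namespace Q71.RL

variable {n : ℕ}

lemma en_continuous : Continuous (en : (Fin n → ℂ) → ℝ) := by
  unfold en
  fun_prop

lemma norm_le_en (z : Fin n → ℂ) : ‖z‖ ≤ en z := by
  rw [pi_norm_le_iff_of_nonneg (en_nonneg z)]
  intro i
  unfold en
  apply Real.le_sqrt_of_sq_le
  exact Finset.single_le_sum (f := fun i => ‖z i‖ ^ 2) (fun j _ => by positivity) (Finset.mem_univ i)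

lemma compact_unit : IsCompact {z : Fin n → ℂ | en z ≤ 1} := by
  apply Metric.isCompact_of_isClosed_isBounded
  · exact isClosed_le en_continuous continuous_const
  · refine (Metric.isBounded_closedBall (x := (0 : Fin n → ℂ)) (r := 1)).subset ?_
    intro z hz
    have hz' : en z ≤ 1 := hz
    rw [mem_closedBall_zero_iff]
    exact (norm_le_en z).trans hz'

/-- the radii -/
noncomputable def rad (k : ℕ) : ℝ := 1 - (1 / 2) ^ (k + 1)

/-- the errors -/
noncomputable def er (k : ℕ) : ℝ := (1 / 2) ^ (k + 2)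

theorem main (n : ℕ) (hn : 1 < n) : ∃ f : (Fin n → ℂ) → ℂ,
      DifferentiableOn ℂ f {z : Fin n → ℂ | ∑ i, ‖z i‖ ^ 2 < 1} ∧
      (∃ z : Fin n → ℂ, ∑ i, ‖z i‖ ^ 2 < 1 ∧ f z ≠ 0) ∧
      ∀ᵐ z ∂(volume : Measure (Fin n → ℂ)),
        Filter.Tendsto
          (fun r : ℝ => f (((r / Real.sqrt (∑ i, ‖z i‖ ^ 2) : ℝ) : ℂ) • z))
          (nhdsWithin (1 : ℝ) (Set.Iio 1)) (nhds (0 : ℂ)) := by
  have hst := fun k : ℕ => stage n (ε := er k) (ρ := rad k) (by unfold er; positivity)
    (by unfold er; exact pow_le_one₀ (by norm_num) (by norm_num))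
    (by
      unfold rad
      have : ((1 : ℝ) / 2) ^ (k + 1) ≤ 1 := pow_le_one₀ (by norm_num) (by norm_num)
      linarith)
    (by
      unfold rad
      have : (0 : ℝ) < (1 / 2) ^ (k + 1) := by positivity
      linarith)
  choose G Bad r0 hr0 hG hG1 hBad hcone hG2 hG3 using hst
  set FK : ℕ → (Fin n → ℂ) → ℂ := fun K z => ∏ k ∈ Finset.range K, G k z with hFK
  have hFKd : ∀ K, Differentiable ℂ (FK K) := by
    intro K
    intro z
    classical
    exact (HasFDerivAt.finsetProd (u := Finset.range K) (g := fun k z => G k z)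
      (fun a _ => (hG a z).hasFDerivAt)).differentiableAt
  have hsucc : ∀ K z, FK (K + 1) z = FK K z * G K z := fun K z => Finset.prod_range_succ _ _
  have hbd : ∀ K, ∃ B : ℝ, 0 ≤ B ∧ ∀ z, en z ≤ 1 → ‖FK K z‖ ≤ B := by
    intro K
    obtain ⟨B, hB⟩ := compact_unit.exists_bound_of_continuousOn
      ((hFKd K).continuous.continuousOn (s := {z : Fin n → ℂ | en z ≤ 1}))
    exact ⟨max B 0, le_max_right _ _, fun z hz => (hB z hz).trans (le_max_left _ _)⟩
  -- the growth bound
  have hstep : ∀ (B : ℝ) (K : ℕ), 0 ≤ B → B * (2 - (1 / 2) ^ K) * (1 + er K) ≤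
      B * (2 - (1 / 2) ^ (K + 1)) := by
    intro B K hB
    unfold er
    rw [mul_assoc]
    apply mul_le_mul_of_nonneg_left _ hB
    have e1 : ((1 : ℝ) / 2) ^ (K + 2) = (1 / 2) ^ K / 4 := by
      rw [pow_add]
      ring
    have e2 : ((1 : ℝ) / 2) ^ (K + 1) = (1 / 2) ^ K / 2 := by
      rw [pow_add]
      ring
    rw [e1, e2]
    have hx : (0 : ℝ) < (1 / 2) ^ K := by positivity
    nlinarith
  have hunif : ∀ ρ < (1 : ℝ), ∃ k0 : ℕ, ∃ B : ℝ, 0 ≤ B ∧ ∀ z : Fin n → ℂ, en z ≤ ρ →
      ∀ j : ℕ, dist (FK (j + k0) z) (FK (j + 1 + k0) z) ≤ B * (1 / 2) ^ j := by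
    intro ρ hρ
    obtain ⟨k0, hk0⟩ : ∃ k0 : ℕ, ∀ k ≥ k0, ρ ≤ rad k := by
      obtain ⟨k0, hk0⟩ := exists_pow_lt_of_lt_one (show (0 : ℝ) < 1 - ρ by linarith)
        (show (1 / 2 : ℝ) < 1 by norm_num)
      refine ⟨k0, fun k hk => ?_⟩
      unfold rad
      have : ((1 : ℝ) / 2) ^ (k + 1) ≤ (1 / 2) ^ k0 :=
        pow_le_pow_of_le_one (by norm_num) (by norm_num) (by omega)
      linarith
    obtain ⟨B, hB0, hB⟩ := hbd k0
    refine ⟨k0, 2 * B, by positivity, ?_⟩
    intro z hz j
    have hg : ∀ j : ℕ, ‖FK (j + k0) z‖ ≤ B * (2 - (1 / 2) ^ (j + k0)) := by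
      intro j
      induction j with
      | zero =>
        rw [zero_add]
        refine (hB z (by linarith)).trans ?_
        have : ((1 : ℝ) / 2) ^ k0 ≤ 1 := pow_le_one₀ (by norm_num) (by norm_num)
        nlinarith
      | succ j ih =>
        rw [show j + 1 + k0 = (j + k0) + 1 by ring, hsucc, norm_mul]
        refine le_trans ?_ (hstep B (j + k0) hB0)
        apply mul_le_mul ih _ (norm_nonneg _)
        · have : ((1 : ℝ) / 2) ^ (j + k0) ≤ 1 := pow_le_one₀ (by norm_num) (by norm_num)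
          apply mul_nonneg hB0
          linarith
        · have h1 := hG1 (j + k0) z (hz.trans (hk0 _ (by omega)))
          calc ‖G (j + k0) z‖ = ‖1 + (G (j + k0) z - 1)‖ := by ring_nf
            _ ≤ ‖(1 : ℂ)‖ + ‖G (j + k0) z - 1‖ := norm_add_le _ _
            _ ≤ _ := by rw [norm_one]; linarith
    rw [show j + 1 + k0 = (j + k0) + 1 by ring, hsucc, dist_eq_norm,
      show FK (j + k0) z - FK (j + k0) z * G (j + k0) z =
        -(FK (j + k0) z * (G (j + k0) z - 1)) by ring, norm_neg, norm_mul]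
    have h1 := hG1 (j + k0) z (hz.trans (hk0 _ (by omega)))
    have h2 : er (j + k0) ≤ (1 / 2) ^ j := by
      unfold er
      exact pow_le_pow_of_le_one (by norm_num) (by norm_num) (by omega)
    have h3 : ‖FK (j + k0) z‖ ≤ 2 * B := by
      refine (hg j).trans ?_
      have : (0 : ℝ) < (1 / 2) ^ (j + k0) := by positivity
      nlinarith
    exact mul_le_mul h3 (h1.trans h2) (norm_nonneg _) (by positivity)
  have hlimex : ∀ z : Fin n → ℂ, en z < 1 → ∃ a, Tendsto (fun K => FK K z) atTop (𝓝 a) := by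
    intro z hz
    obtain ⟨k0, B, hB, h⟩ := hunif (en z) hz
    have hc : CauchySeq (fun j => FK (j + k0) z) :=
      cauchySeq_of_le_geometric (1 / 2) B (by norm_num) (h z le_rfl)
    obtain ⟨a, ha⟩ := cauchySeq_tendsto_of_complete hc
    exact ⟨a, (tendsto_add_atTop_iff_nat k0).mp ha⟩
  set F : (Fin n → ℂ) → ℂ := fun z => limUnder atTop (fun K => FK K z) with hF
  have hFlim : ∀ z : Fin n → ℂ, en z < 1 → Tendsto (fun K => FK K z) atTop (𝓝 (F z)) :=
    fun z hz => tendsto_nhds_limUnder (hlimex z hz)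
  have hset : ∀ z : Fin n → ℂ, ∑ i, ‖z i‖ ^ 2 < 1 ↔ en z < 1 := by
    intro z
    rw [← en_sq]
    constructor
    · intro h
      nlinarith [en_nonneg z]
    · intro h
      nlinarith [en_nonneg z]
  refine ⟨F, ?_, ?_, ?_⟩
  · -- holomorphy
    let e := EuclideanSpace.equiv (Fin n) ℂ
    have hen : ∀ x : EuclideanSpace ℂ (Fin n), en (e x) = ‖x‖ := by
      intro x
      rw [EuclideanSpace.norm_eq]
      rfl
    have hW := Pool.Agent.Helper287.MB.J5.weierstrass_ball
      (E := EuclideanSpace ℂ (Fin n)) (fun K x => FK K (e x)) (fun x => F (e x))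
      (fun K => ((hFKd K).comp e.differentiable).differentiableOn) ?_
    · have h2 : DifferentiableOn ℂ (fun z => F (e (e.symm z)))
          {z : Fin n → ℂ | ∑ i, ‖z i‖ ^ 2 < 1} := by
        refine hW.comp e.symm.differentiable.differentiableOn ?_
        intro z hz
        rw [mem_ball_zero_iff, ← hen, e.apply_symm_apply]
        exact (hset z).mp hz
      simpa using h2
    · intro ρ hρ ε hε
      obtain ⟨k0, B, hB, h⟩ := hunif ρ hρ
      have h5 : Tendsto (fun j : ℕ => B * (1 / 2) ^ j / (1 - 1 / 2)) atTop (𝓝 0) := by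
        have := ((tendsto_pow_atTop_nhds_zero_of_lt_one (show (0 : ℝ) ≤ 1 / 2 by norm_num)
          (by norm_num)).const_mul B).div_const (1 - 1 / 2)
        simpa using this
      obtain ⟨J, hJ⟩ := (h5.eventually_le_const hε).exists_forall_of_atTop
      refine ⟨J + k0, fun j hj x hx => ?_⟩
      obtain ⟨i, rfl⟩ : ∃ i, j = i + k0 := ⟨j - k0, by omega⟩
      have hx' : en (e x) ≤ ρ := by rw [hen]; exact hx
      have h6 := dist_le_of_le_geometric_of_tendsto (1 / 2) B (by norm_num) (h (e x) hx')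
        ((tendsto_add_atTop_iff_nat k0).mpr (hFlim (e x) (by linarith))) i
      rw [dist_eq_norm] at h6
      exact h6.trans (hJ i (by omega))
  · -- nonvanishing
    have hen0 : en (0 : Fin n → ℂ) = 0 := by simp [en]
    refine ⟨0, by simp, ?_⟩
    have hlow : ∀ K, 1 / 2 + (1 / 2) ^ (K + 1) ≤ ‖FK K 0‖ := by
      intro K
      induction K with
      | zero => simp [hFK]; norm_num
      | succ K ih =>
        rw [hsucc, norm_mul]
        have h1 : 1 - er K ≤ ‖G K 0‖ := by
          have h2 := hG1 K 0 (by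
            rw [hen0]
            unfold rad
            have : ((1 : ℝ) / 2) ^ (K + 1) ≤ 1 := pow_le_one₀ (by norm_num) (by norm_num)
            linarith)
          have h3 : ‖(1 : ℂ)‖ ≤ ‖G K 0‖ + ‖G K 0 - 1‖ := by
            calc ‖(1 : ℂ)‖ = ‖G K 0 - (G K 0 - 1)‖ := by ring_nf
              _ ≤ _ := norm_sub_le _ _
          rw [norm_one] at h3
          linarith
        have hx : (0 : ℝ) < (1 / 2) ^ K := by positivity
        have hx1 : ((1 : ℝ) / 2) ^ K ≤ 1 := pow_le_one₀ (by norm_num) (by norm_num)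
        have h4 : 1 / 2 + (1 / 2) ^ (K + 1 + 1) ≤ (1 / 2 + (1 / 2) ^ (K + 1)) * (1 - er K) := by
          unfold er
          have e1 : ((1 : ℝ) / 2) ^ (K + 2) = (1 / 2) ^ K / 4 := by
            rw [pow_add]
            ring
          have e2 : ((1 : ℝ) / 2) ^ (K + 1) = (1 / 2) ^ K / 2 := by
            rw [pow_add]
            ring
          have e3 : ((1 : ℝ) / 2) ^ (K + 1 + 1) = (1 / 2) ^ K / 4 := e1
          rw [e3, e2]
          nlinarith
        refine h4.trans (mul_le_mul ih h1 ?_ (norm_nonneg _))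
        unfold er
        have : ((1 : ℝ) / 2) ^ (K + 2) ≤ 1 := pow_le_one₀ (by norm_num) (by norm_num)
        linarith
    have h5 : 1 / 2 ≤ ‖F 0‖ := by
      refine ge_of_tendsto' (hFlim 0 (by rw [hen0]; norm_num)).norm (fun K => ?_)
      have := hlow K
      have h6 : (0 : ℝ) < (1 / 2) ^ (K + 1) := by positivity
      linarith
    intro h0
    rw [h0, norm_zero] at h5
    norm_num at h5
  · -- radial limits
    have hBC : ∀ R : ℕ, ∀ᵐ z : Fin n → ℂ, ∀ᶠ k in atTop, z ∉ Bad k ∩ ball 0 (R : ℝ) := by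
      intro R
      apply ae_eventually_notMem
      have h1 : ∑' k, volume (Bad k ∩ ball 0 (R : ℝ)) ≤
          ∑' k, ENNReal.ofReal (er k) * volume (ball (0 : Fin n → ℂ) R) :=
        ENNReal.tsum_le_tsum (fun k => hBad k R)
      refine ne_of_lt (lt_of_le_of_lt h1 ?_)
      rw [ENNReal.tsum_mul_right]
      apply ENNReal.mul_lt_top _ measure_ball_lt_top
      have hs : Summable er := by
        unfold er
        exact (summable_nat_add_iff 2).mpr (summable_geometric_of_lt_one (by norm_num)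
          (by norm_num))
      rw [← ENNReal.ofReal_tsum_of_nonneg (fun k => by unfold er; positivity) hs]
      exact ENNReal.ofReal_lt_top
    have hne : ∀ᵐ z : Fin n → ℂ, z ≠ 0 := by
      have h0 : volume ({0} : Set (Fin n → ℂ)) = 0 := by
        clear * - hn
        obtain ⟨N, rfl⟩ : ∃ N, n = N + 1 := ⟨n - 1, by omega⟩
        simp
      rw [ae_iff]
      simpa using h0
    filter_upwards [ae_all_iff.mpr hBC, hne] with z hz hz0
    obtain ⟨R, hR⟩ := exists_nat_gt ‖z‖
    have hzR : z ∈ ball (0 : Fin n → ℂ) (R : ℝ) := by rwa [mem_ball_zero_iff]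
    obtain ⟨k1, hk1⟩ := (hz R).exists_forall_of_atTop
    have hzb : ∀ k ≥ k1, z ∉ Bad k := fun k hk h => hk1 k hk ⟨h, hzR⟩
    have henz : 0 < en z := lt_of_lt_of_le (norm_pos_iff.mpr hz0) (norm_le_en z)
    have henz' : √(∑ i, ‖z i‖ ^ 2) = en z := rfl
    obtain ⟨B, hB0, hB⟩ := hbd k1
    rw [Metric.tendsto_nhds]
    intro ε hε
    obtain ⟨j, hj⟩ : ∃ j : ℕ, 2 * B * (1 / 2) ^ j < ε := by
      have h5 : Tendsto (fun j : ℕ => 2 * B * (1 / 2) ^ j) atTop (𝓝 0) := by
        have := (tendsto_pow_atTop_nhds_zero_of_lt_one (show (0 : ℝ) ≤ 1 / 2 by norm_num)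
          (by norm_num)).const_mul (2 * B)
        simpa using this
      exact (h5.eventually_lt_const hε).exists
    have hev : ∀ᶠ r in 𝓝[<] (1 : ℝ), ∀ k ∈ Finset.range (k1 + j), r0 k < r := by
      rw [Finset.eventually_all]
      intro k _
      filter_upwards [Ioo_mem_nhdsLT (hr0 k)] with r hr using hr.1
    have hev2 : ∀ᶠ r in 𝓝[<] (1 : ℝ), 0 < r ∧ r < 1 := by
      filter_upwards [Ioo_mem_nhdsLT (show (0 : ℝ) < 1 by norm_num)] with r hr using hr
    filter_upwards [hev, hev2] with r hr hr2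
    rw [dist_zero_right, henz']
    set ζ : Fin n → ℂ := ((r / en z : ℝ) : ℂ) • z with hζ
    have hc : 0 < r / en z := div_pos hr2.1 henz
    have hζb : ∀ k ≥ k1, ζ ∉ Bad k := by
      intro k hk h
      exact hzb k hk ((hcone k z (r / en z) hc).mp h)
    have hζe : en ζ = r := by
      rw [hζ, en_smul, Complex.norm_real, Real.norm_of_nonneg hc.le]
      field_simp
    have hA : ∀ i ≤ j, ‖FK (k1 + i) ζ‖ ≤ B * (1 / 2) ^ i := by
      intro i
      induction i with
      | zero =>
        intro _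
        rw [add_zero, pow_zero, mul_one]
        exact hB ζ (by rw [hζe]; exact hr2.2.le)
      | succ i ih =>
        intro hi
        have h1 := ih (by omega)
        rw [← add_assoc, hsucc, norm_mul, pow_succ, ← mul_assoc]
        apply mul_le_mul h1 _ (norm_nonneg _) (by positivity)
        apply hG3 (k1 + i) ζ (hζb _ (by omega)) (by rw [hζe]; exact hr2.2.le)
        rw [hζe]
        exact (hr (k1 + i) (Finset.mem_range.mpr (by omega))).le
    have hC : ∀ i, ‖FK (k1 + j + i) ζ‖ ≤ (B * (1 / 2) ^ j) * (2 - (1 / 2) ^ (k1 + j + i)) := by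
      intro i
      induction i with
      | zero =>
        rw [add_zero]
        refine (hA j le_rfl).trans ?_
        have : ((1 : ℝ) / 2) ^ (k1 + j) ≤ 1 := pow_le_one₀ (by norm_num) (by norm_num)
        have h2 : 0 ≤ B * (1 / 2) ^ j := by positivity
        nlinarith
      | succ i ih =>
        rw [← add_assoc, hsucc, norm_mul]
        refine le_trans ?_ (hstep (B * (1 / 2) ^ j) (k1 + j + i) (by positivity))
        apply mul_le_mul ih _ (norm_nonneg _)
        · have : ((1 : ℝ) / 2) ^ (k1 + j + i) ≤ 1 := pow_le_one₀ (by norm_num) (by norm_num)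
          apply mul_nonneg (by positivity)
          linarith
        · exact hG2 (k1 + j + i) ζ (hζb _ (by omega)) (by rw [hζe]; exact hr2.2.le)
    have hlim := (hFlim ζ (by rw [hζe]; exact hr2.2)).norm
    have hlim2 := (tendsto_add_atTop_iff_nat (k1 + j)).mpr hlim
    refine lt_of_le_of_lt (le_of_tendsto' hlim2 (fun i => ?_)) hj
    rw [add_comm i]
    refine (hC i).trans ?_
    have h6 : (0 : ℝ) < (1 / 2) ^ (k1 + j + i) := by positivity
    have h7 : 0 ≤ B * (1 / 2) ^ j := by positivity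
    nlinarith

end Q71.RL
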