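import Pool.Agent.Helper240.ZFM.R3

open Complex Filter Topology Set Metric

namespace Q71.RL

/-- the square root -/
noncomputable def sq (v : ℂ) : ℂ := v ^ (1 / 2 : ℂ)

lemma sq_sq (v : ℂ) : sq v ^ 2 = v := by
  unfold sq
  simp

lemma sq_re_nonneg (v : ℂ) : 0 ≤ (sq v).re := by
  unfold sq
  by_cases hv : v = 0
  · rw [hv, Complex.zero_cpow (by norm_num)]
    simp
  · rw [Complex.cpow_def_of_ne_zero hv, Complex.exp_re]
    apply mul_nonneg (Real.exp_nonneg _)
    have h1 : (Complex.log v * (1 / 2)).im = v.arg / 2 := by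
      rw [show Complex.log v * (1 / 2) = Complex.log v / 2 by ring, Complex.div_ofNat_im,
        Complex.log_im]
    rw [h1]
    apply Real.cos_nonneg_of_mem_Icc
    have h2 := Complex.neg_pi_lt_arg v
    have h3 := Complex.arg_le_pi v
    constructor <;> linarith

lemma sq_re (v : ℂ) : (sq v).re ^ 2 = (‖v‖ + v.re) / 2 := by
  have h1 := sq_sq v
  have h2 : ‖sq v‖ ^ 2 = ‖v‖ := by rw [← norm_pow, h1]
  rw [Complex.sq_norm, Complex.normSq_apply] at h2
  have h3 := congrArg Complex.re h1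
  rw [pow_two, Complex.mul_re] at h3
  nlinarith

/-- the compact set -/
def KS (κ b : ℝ) : Set ℂ := {w | ‖w‖ ≤ 1 ∧ (w.re ≤ κ * ‖w‖ ∨ ‖w‖ ≤ b)}

lemma KS_compact (κ b : ℝ) : IsCompact (KS κ b) := by
  apply Metric.isCompact_of_isClosed_isBounded
  · have : KS κ b = {w : ℂ | ‖w‖ ≤ 1} ∩ ({w | w.re ≤ κ * ‖w‖} ∪ {w | ‖w‖ ≤ b}) := by
      ext w
      rfl
    rw [this]
    apply IsClosed.inter
    · exact isClosed_le continuous_norm continuous_const
    · apply IsClosed.union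
      · exact isClosed_le Complex.continuous_re (by fun_prop)
      · exact isClosed_le continuous_norm continuous_const
  · refine (Metric.isBounded_closedBall (x := (0 : ℂ)) (r := 1)).subset ?_
    intro z hz
    simpa using hz.1

lemma outer_preconnected : IsPreconnected {w : ℂ | 1 < ‖w‖} := by
  have h1 : IsPreconnected ((Ioi (1 : ℝ)) ×ˢ (univ : Set ℝ)) :=
    isPreconnected_Ioi.prod isPreconnected_univ
  have h2 := h1.image (fun p : ℝ × ℝ => (p.1 : ℂ) * exp (p.2 * I)) (by fun_prop)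
  have h3 : (fun p : ℝ × ℝ => (p.1 : ℂ) * exp (p.2 * I)) '' ((Ioi (1 : ℝ)) ×ˢ (univ : Set ℝ)) =
      {w : ℂ | 1 < ‖w‖} := by
    ext w
    constructor
    · rintro ⟨⟨r, t⟩, ⟨hr, _⟩, rfl⟩
      have hr' : (1 : ℝ) < r := hr
      show 1 < ‖(r : ℂ) * exp (t * I)‖
      rw [norm_mul, Complex.norm_exp_ofReal_mul_I, mul_one, Complex.norm_real,
        Real.norm_of_nonneg (by linarith)]
      exact hr'
    · intro hw
      refine ⟨(‖w‖, w.arg), ⟨hw, mem_univ _⟩, ?_⟩
      exact Complex.norm_mul_exp_arg_mul_I w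
  rw [← h3]
  exact h2

lemma mem_compl_KS {κ b : ℝ} {w : ℂ} :
    w ∈ (KS κ b)ᶜ ↔ 1 < ‖w‖ ∨ (κ * ‖w‖ < w.re ∧ b < ‖w‖) := by
  have : w ∈ (KS κ b)ᶜ ↔ ¬ (‖w‖ ≤ 1 ∧ (w.re ≤ κ * ‖w‖ ∨ ‖w‖ ≤ b)) := Iff.rfl
  rw [this]
  constructor
  · intro h
    by_cases h1 : ‖w‖ ≤ 1
    · right
      constructor
      · by_contra hc
        exact h ⟨h1, Or.inl (not_lt.mp hc)⟩
      · by_contra hc
        exact h ⟨h1, Or.inr (not_lt.mp hc)⟩
    · exact Or.inl (not_le.mp h1)
  · rintro (h | ⟨h1, h2⟩) ⟨h3, h4⟩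
    · linarith
    · rcases h4 with h4 | h4 <;> linarith

lemma KS_compl_connected {κ b : ℝ} (hb : 0 ≤ b) : IsConnected (KS κ b)ᶜ := by
  have h2mem : (2 : ℂ) ∈ (KS κ b)ᶜ := by
    rw [mem_compl_KS]
    left
    norm_num
  refine ⟨⟨2, h2mem⟩, ?_⟩
  apply isPreconnected_of_forall (2 : ℂ)
  intro y hy
  rw [mem_compl_KS] at hy
  have hy0 : 0 < ‖y‖ := by
    rcases hy with h | h
    · linarith
    · linarith [h.2]
  set T : Set ℂ := (fun s : ℝ => (s : ℂ) * y) '' (Ici 1) with hT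
  have hTc : IsPreconnected T := isPreconnected_Ici.image _ (by fun_prop)
  have hTn : ∀ s : ℝ, 1 ≤ s → ‖(s : ℂ) * y‖ = s * ‖y‖ := by
    intro s hs
    rw [norm_mul, Complex.norm_real, Real.norm_of_nonneg (by linarith)]
  refine ⟨T ∪ {w : ℂ | 1 < ‖w‖}, ?_, ?_, ?_, ?_⟩
  · rintro w (⟨s, hs, rfl⟩ | hw)
    · have hs' : (1 : ℝ) ≤ s := hs
      rw [mem_compl_KS]
      simp only
      rw [hTn s hs']
      rcases hy with h | h
      · left
        nlinarith
      · right
        constructor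
        · rw [Complex.re_ofReal_mul]
          nlinarith [h.1]
        · nlinarith [h.2]
    · rw [mem_compl_KS]
      exact Or.inl hw
  · right
    show (1 : ℝ) < ‖(2 : ℂ)‖
    norm_num
  · left
    exact ⟨1, by simp, by simp⟩
  · have hs1 : (1 : ℝ) ≤ max 1 (2 / ‖y‖) := le_max_left _ _
    refine IsPreconnected.union (((max 1 (2 / ‖y‖) : ℝ) : ℂ) * y) ?_ ?_ hTc outer_preconnected
    · exact ⟨_, hs1, rfl⟩
    · show 1 < ‖((max 1 (2 / ‖y‖) : ℝ) : ℂ) * y‖
      rw [hTn _ hs1]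
      have : 2 / ‖y‖ ≤ max 1 (2 / ‖y‖) := le_max_right _ _
      rw [div_le_iff₀ hy0] at this
      linarith

/-- The one-variable polynomial. -/
theorem poly (J : ℕ) (hJ : 1 ≤ J) : ∃ p : Polynomial ℂ,
    (∀ w : ℂ, ‖w‖ ≤ 1 → w.re ≤ (1 - 1 / (J : ℝ) ^ 2) * ‖w‖ → ‖p.eval w‖ ≤ 1 + 1 / J) ∧
    (∀ w : ℂ, ‖w‖ ≤ 1 / (2048 * (J : ℝ) ^ 4) → ‖p.eval w - 1‖ ≤ 1 / J) ∧
    (∀ w : ℂ, ‖w‖ ≤ 1 → w.re ≤ (1 - 1 / (J : ℝ) ^ 2) * ‖w‖ → 1 / 2 ≤ ‖w‖ →
      ‖p.eval w‖ ≤ 1 / 4) := by
  have hJr : (1 : ℝ) ≤ J := by exact_mod_cast hJ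
  have hJ0 : (0 : ℝ) < J := by linarith
  set κ : ℝ := 1 - 1 / (J : ℝ) ^ 2 with hκ
  have hκ1 : κ < 1 := by
    rw [hκ]
    have : (0 : ℝ) < 1 / (J : ℝ) ^ 2 := by positivity
    linarith
  set c : ℝ := 1 / (1024 * (J : ℝ) ^ 4) with hc
  have hc0 : 0 < c := by positivity
  set b : ℝ := 1 / (2048 * (J : ℝ) ^ 4) with hb
  have hbc : b = c / 2 := by
    rw [hb, hc]
    field_simp
    norm_num
  set sc : ℝ := 1 / (32 * (J : ℝ) ^ 2) with hsc
  have hsc0 : 0 < sc := by positivity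
  have hscc : sc ^ 2 = c := by
    rw [hsc, hc]
    field_simp
    norm_num
  set M : ℝ := 8 * J with hM
  have hM0 : 0 < M := by positivity
  have hMsc : M * sc = 1 / (4 * J) := by
    rw [hM, hsc]
    field_simp
    norm_num
  set g : ℂ → ℂ := fun w => exp (-(M : ℂ) * (sq (c - w) - sc)) with hg
  set U : Set ℂ := {w : ℂ | (c : ℂ) - w ∈ slitPlane} with hU
  have hUo : IsOpen U := isOpen_slitPlane.preimage (by fun_prop)
  have hgd : DifferentiableOn ℂ g U := by
    intro w hw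
    apply DifferentiableAt.differentiableWithinAt
    have h1 : DifferentiableAt ℂ (fun w : ℂ => sq (c - w)) w := by
      unfold sq
      exact DifferentiableAt.cpow_const (by fun_prop) hw
    exact ((h1.sub_const _).const_mul _).cexp
  have hKU : KS κ b ⊆ U := by
    intro w hw
    show (c : ℂ) - w ∈ slitPlane
    rw [Complex.mem_slitPlane_iff]
    by_contra hcon
    push Not at hcon
    obtain ⟨h1, h2⟩ := hcon
    simp only [Complex.sub_re, Complex.ofReal_re, Complex.sub_im, Complex.ofReal_im] at h1 h2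
    have him : w.im = 0 := by linarith
    have hre : c ≤ w.re := by linarith
    have hn : ‖w‖ = w.re := by
      have : w = (w.re : ℂ) := by
        apply Complex.ext <;> simp [him]
      rw [this, Complex.norm_real, Real.norm_of_nonneg (by linarith)]
      simp
    rcases hw.2 with h3 | h3
    · rw [hn] at h3
      nlinarith
    · rw [hn, hbc] at h3
      linarith
  obtain ⟨p, hp⟩ := ZFM.J_r3.runge (KS_compact κ b) (KS_compl_connected (by positivity)) hUo hKU
    g hgd (1 / (8 * J)) (by positivity)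
  have hgn : ∀ w : ℂ, ‖g w‖ = Real.exp (-(M * ((sq (c - w)).re)) + M * sc) := by
    intro w
    rw [hg]
    simp only
    rw [Complex.norm_exp]
    congr 1
    rw [show -(M : ℂ) * (sq (c - w) - sc) = ((-M : ℝ) : ℂ) * (sq (c - w) - sc) by push_cast; ring,
      Complex.re_ofReal_mul]
    simp only [Complex.sub_re, Complex.ofReal_re]
    ring
  have hexp1 : Real.exp (1 / (4 * J)) ≤ 1 + 1 / (2 * J) := by
    have h1 : (1 : ℝ) / (4 * J) ≤ 1 := by
      rw [div_le_one (by positivity)]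
      linarith
    have h2 : |Real.exp (1 / (4 * J)) - 1| ≤ 2 * |(1 : ℝ) / (4 * J)| :=
      Real.abs_exp_sub_one_le (by rw [abs_of_pos (by positivity)]; exact h1)
    rw [abs_of_pos (show (0 : ℝ) < 1 / (4 * J) by positivity)] at h2
    have h3 := le_abs_self (Real.exp (1 / (4 * J)) - 1)
    have h4 : 2 * ((1 : ℝ) / (4 * J)) = 1 / (2 * J) := by
      field_simp
      norm_num
    linarith
  have h8 : (1 : ℝ) / (8 * J) ≤ 1 / 8 := by
    apply one_div_le_one_div_of_le (by norm_num)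
    linarith
  refine ⟨p, ?_, ?_, ?_⟩
  · intro w hw1 hw2
    have h1 := hp w ⟨hw1, Or.inl hw2⟩
    have h2 : ‖g w‖ ≤ 1 + 1 / (2 * J) := by
      rw [hgn]
      refine le_trans (Real.exp_le_exp.mpr ?_) hexp1
      have := mul_nonneg hM0.le (sq_re_nonneg (c - w))
      rw [hMsc]
      linarith
    have h3 : ‖p.eval w‖ ≤ ‖g w‖ + ‖g w - p.eval w‖ := by
      calc ‖p.eval w‖ = ‖g w - (g w - p.eval w)‖ := by ring_nf
        _ ≤ _ := norm_sub_le _ _
    have h4 : (1 : ℝ) / (2 * J) + 1 / (8 * J) ≤ 1 / J := by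
      have : (1 : ℝ) / (2 * J) + 1 / (8 * J) = 5 / 8 * (1 / J) := by
        field_simp
        norm_num
      rw [this]
      have : (0 : ℝ) < 1 / J := by positivity
      linarith
    linarith
  · intro w hw
    have hwc : ‖w‖ ≤ c / 2 := by rw [← hbc]; exact hw
    have hw1 : ‖w‖ ≤ 1 := by
      refine hw.trans ?_
      rw [hb, div_le_one (by positivity)]
      nlinarith [pow_le_pow_left₀ (by norm_num : (0:ℝ) ≤ 1) hJr 4]
    have h1 := hp w ⟨hw1, Or.inr hw⟩
    -- the root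
    set s := sq (c - w) with hs
    have hs2 : s ^ 2 = c - w := sq_sq _
    have hprod : (s - sc) * (s + sc) = -w := by
      have : (sc : ℂ) ^ 2 = c := by exact_mod_cast hscc
      linear_combination hs2 - this
    have hlow : sc ≤ ‖s + sc‖ := by
      have h3 : (s + sc).re ≤ ‖s + sc‖ := Complex.re_le_norm _
      have h4 := sq_re_nonneg (c - w)
      simp only [Complex.add_re, Complex.ofReal_re] at h3
      linarith
    have h5 : ‖s - sc‖ * sc ≤ sc ^ 2 / 2 := by
      calc ‖s - sc‖ * sc ≤ ‖s - sc‖ * ‖s + sc‖ := by gcongr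
        _ = ‖w‖ := by rw [← norm_mul, hprod, norm_neg]
        _ ≤ sc ^ 2 / 2 := by rw [hscc]; exact hwc
    have h6 : ‖s - sc‖ ≤ sc / 2 := by
      by_contra hcon
      push Not at hcon
      nlinarith
    have h7 : ‖-(M : ℂ) * (s - sc)‖ ≤ 1 / (8 * J) := by
      rw [norm_mul, norm_neg, Complex.norm_real, Real.norm_of_nonneg hM0.le]
      calc M * ‖s - sc‖ ≤ M * (sc / 2) := by gcongr
        _ = (M * sc) / 2 := by ring
        _ = 1 / (8 * J) := by
            rw [hMsc]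
            field_simp
            norm_num
    have h9 : ‖g w - 1‖ ≤ 2 * (1 / (8 * J)) := by
      have h10 := Complex.norm_exp_sub_one_le (x := -(M : ℂ) * (s - sc)) (by linarith)
      refine h10.trans ?_
      linarith
    have h11 : ‖p.eval w - 1‖ ≤ ‖g w - 1‖ + ‖g w - p.eval w‖ := by
      calc ‖p.eval w - 1‖ = ‖(g w - 1) - (g w - p.eval w)‖ := by ring_nf
        _ ≤ _ := norm_sub_le _ _
    have h12 : 2 * ((1 : ℝ) / (8 * J)) + 1 / (8 * J) ≤ 1 / J := by
      have : 2 * ((1 : ℝ) / (8 * J)) + 1 / (8 * J) = 3 / 8 * (1 / J) := by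
        field_simp
        norm_num
      rw [this]
      have : (0 : ℝ) < 1 / J := by positivity
      linarith
    linarith
  · intro w hw1 hw2 hw3
    have h1 := hp w ⟨hw1, Or.inl hw2⟩
    have h2 : 1 / (2 * J) ≤ (sq (c - w)).re := by
      have h3 := sq_re (c - w)
      have h4 : ‖w‖ - c ≤ ‖(c : ℂ) - w‖ := by
        have := norm_sub_norm_le w (c : ℂ)
        rw [norm_sub_rev, Complex.norm_real, Real.norm_of_nonneg hc0.le] at this
        exact this
      have h5 : ((c : ℂ) - w).re = c - w.re := by simp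
      rw [h5] at h3
      have h6 : (1 / (2 * (J : ℝ))) ^ 2 ≤ (sq (c - w)).re ^ 2 := by
        rw [h3]
        have e1 : (1 / (2 * (J : ℝ))) ^ 2 = (1 / 2 * (1 / (J : ℝ) ^ 2)) / 2 := by
          field_simp
        rw [e1]
        have e2 : ‖w‖ - w.re ≥ ‖w‖ * (1 / (J : ℝ) ^ 2) := by
          rw [hκ] at hw2
          nlinarith
        have e3 : (0 : ℝ) < 1 / (J : ℝ) ^ 2 := by positivity
        nlinarith
      exact le_of_sq_le_sq h6 (sq_re_nonneg _)
    have h3 : ‖g w‖ ≤ 1 / 8 := by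
      rw [hgn]
      have h4 : -(M * (sq (c - w)).re) + M * sc ≤ -3 := by
        have h5 : M * (1 / (2 * J)) ≤ M * (sq (c - w)).re := by gcongr
        have h6 : M * (1 / (2 * (J : ℝ))) = 4 := by
          rw [hM]
          field_simp
          norm_num
        have h7 : (1 : ℝ) / (4 * J) ≤ 1 := by
          rw [div_le_one (by positivity)]
          linarith
        rw [hMsc]
        linarith
      refine (Real.exp_le_exp.mpr h4).trans ?_
      rw [Real.exp_neg]
      have h5 : (8 : ℝ) ≤ Real.exp 3 := by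
        have h6 : (2 : ℝ) ≤ Real.exp 1 := by
          have := Real.add_one_le_exp (1 : ℝ)
          linarith
        have h7 : Real.exp 3 = Real.exp 1 ^ 3 := by
          rw [← Real.exp_nat_mul]
          norm_num
        rw [h7]
        calc (8 : ℝ) = 2 ^ 3 := by norm_num
          _ ≤ _ := pow_le_pow_left₀ (by norm_num) h6 3
      rw [inv_le_comm₀ (Real.exp_pos 3) (by norm_num)]
      linarith
    have h4 : ‖p.eval w‖ ≤ ‖g w‖ + ‖g w - p.eval w‖ := by
      calc ‖p.eval w‖ = ‖g w - (g w - p.eval w)‖ := by ring_nf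
        _ ≤ _ := norm_sub_le _ _
    linarith

end Q71.RL
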