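import Mathlib

open MeasureTheory Complex Filter Topology Set Metric
open scoped ENNReal

namespace Q71.RL

variable {n : ℕ}

lemma mp_unit {u : ℂ} (hu : ‖u‖ = 1) :
    MeasurePreserving (fun a : Fin n → ℂ => u • a) volume volume := by
  have h : MeasurePreserving (fun w : ℂ => u * w) volume volume := by
    let c : Circle := ⟨u, by simpa [Submonoid.unitSphere] using hu⟩
    have h1 := (rotation c).measurePreserving
    have h2 : (fun w : ℂ => u * w) = rotation c := by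
      funext w
      rfl
    rw [h2]
    exact h1
  exact volume_preserving_pi (fun _ : Fin n => h)

/-- the linear functional `z ↦ ⟨z, g⟩` -/
noncomputable def ip (g z : Fin n → ℂ) : ℂ := ∑ i, starRingEnd ℂ (g i) * z i

lemma ip_smul (g z : Fin n → ℂ) (c : ℂ) : ip g (c • z) = c * ip g z := by
  unfold ip
  rw [Finset.mul_sum]
  apply Finset.sum_congr rfl
  intro i _
  rw [Pi.smul_apply, smul_eq_mul]
  ring

lemma ip_continuous (g : Fin n → ℂ) : Continuous (ip g) := by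
  unfold ip
  fun_prop

/-- the bad set of one direction -/
def Bd (g : Fin n → ℂ) (N J : ℕ) : Set (Fin n → ℂ) :=
  {z | (1 - 1 / (J : ℝ) ^ 2) * ‖ip g z ^ N‖ < (ip g z ^ N).re}

lemma Bd_open (g : Fin n → ℂ) (N J : ℕ) : IsOpen (Bd g N J) := by
  have h := ip_continuous g
  exact isOpen_lt (by fun_prop) (by fun_prop)

lemma sin_lower {J i : ℕ} (hi : 1 ≤ i) (hiJ : i < J) : 2 / (J : ℝ) ≤ Real.sin (Real.pi * i / J) := by
  have hJ0 : (0 : ℝ) < J := by
    have : 0 < J := by omega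
    exact_mod_cast this
  have hir : (1 : ℝ) ≤ i := by exact_mod_cast hi
  have key : ∀ x : ℝ, 1 ≤ x → x ≤ J / 2 → 2 / (J : ℝ) ≤ Real.sin (Real.pi * x / J) := by
    intro x hx1 hx2
    have h1 := Real.mul_le_sin (x := Real.pi * x / J) (by positivity) (by
      rw [div_le_div_iff₀ hJ0 (by norm_num)]
      nlinarith [Real.pi_pos])
    refine le_trans ?_ h1
    have : 2 / Real.pi * (Real.pi * x / J) = 2 * x / J := by
      field_simp
    rw [this]
    apply div_le_div_of_nonneg_right _ hJ0.le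
    linarith
  by_cases hcase : (i : ℝ) ≤ J / 2
  · exact key i hir hcase
  · rw [not_le] at hcase
    have h2 : Real.sin (Real.pi * i / J) = Real.sin (Real.pi * (J - i) / J) := by
      rw [← Real.sin_pi_sub]
      congr 1
      field_simp
    rw [h2]
    have h3 : (i : ℝ) + 1 ≤ J := by exact_mod_cast hiJ
    exact key (J - i) (by linarith) (by linarith)

lemma root_dist {J i : ℕ} (hi : 1 ≤ i) (hiJ : i < J) :
    16 / (J : ℝ) ^ 2 ≤ ‖exp ((2 * Real.pi * i / J : ℝ) * I) - 1‖ ^ 2 := by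
  have hJ0 : (0 : ℝ) < J := by
    have : 0 < J := by omega
    exact_mod_cast this
  have h1 := sin_lower hi hiJ
  rw [Complex.sq_norm, Complex.normSq_apply, Complex.exp_mul_I]
  simp only [Complex.sub_re, Complex.sub_im, Complex.add_re, Complex.add_im, Complex.one_re,
    Complex.one_im, Complex.mul_I_re, Complex.mul_I_im, ← Complex.ofReal_cos, ← Complex.ofReal_sin,
    Complex.ofReal_re, Complex.ofReal_im]
  have h2 := Real.sin_sq_add_cos_sq (2 * Real.pi * i / J)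
  have h3 : Real.cos (2 * Real.pi * i / J) = 1 - 2 * Real.sin (Real.pi * i / J) ^ 2 := by
    rw [show 2 * Real.pi * (i : ℝ) / J = 2 * (Real.pi * i / J) by ring, Real.cos_two_mul,
      ← Real.sin_sq_add_cos_sq (Real.pi * i / J)]
    ring
  have h4 : (2 / (J : ℝ)) ^ 2 ≤ Real.sin (Real.pi * i / J) ^ 2 :=
    pow_le_pow_left₀ (by positivity) h1 2
  have h5 : 16 / (J : ℝ) ^ 2 = 4 * (2 / (J : ℝ)) ^ 2 := by
    field_simp
    norm_num
  rw [h5]
  nlinarith

lemma disj_core {J : ℕ} {κ : ℝ} (hκ : κ = 1 - 1 / (J : ℝ) ^ 2) (hJ : 1 ≤ J) {s q : ℂ}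
    (hq : ‖q‖ = 1) (h1 : κ * ‖s‖ < s.re) (h2 : κ * ‖q * s‖ < (q * s).re) :
    ‖q - 1‖ ^ 2 < 16 / (J : ℝ) ^ 2 := by
  have hJ0 : (0 : ℝ) < J := by exact_mod_cast hJ
  set ρ := ‖s‖ with hρ
  have hs0 : 0 < ρ := by
    rw [hρ, norm_pos_iff]
    rintro rfl
    rw [hρ, norm_zero, mul_zero, Complex.zero_re] at h1
    exact lt_irrefl _ h1
  have hqs : ‖q * s‖ = ρ := by rw [norm_mul, hq, one_mul]
  rw [hqs] at h2
  have key : ∀ t : ℂ, ‖t‖ = ρ → κ * ρ < t.re → ‖t - ρ‖ ^ 2 < 2 * ρ ^ 2 / (J : ℝ) ^ 2 := by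
    intro t ht htr
    have e1 : ‖t‖ ^ 2 = ρ ^ 2 := by rw [ht]
    rw [Complex.sq_norm, Complex.normSq_apply] at e1
    rw [Complex.sq_norm, Complex.normSq_apply]
    simp only [Complex.sub_re, Complex.ofReal_re, Complex.sub_im, Complex.ofReal_im, sub_zero]
    have e2 : 2 * ρ ^ 2 / (J : ℝ) ^ 2 = 2 * ρ ^ 2 * (1 - κ) := by
      rw [hκ]
      ring
    rw [e2]
    nlinarith
  have k1 := key s rfl h1
  have k2 := key (q * s) hqs h2
  have k3 : ‖(q - 1) * s‖ ^ 2 ≤ 2 * (‖q * s - ρ‖ ^ 2 + ‖s - ρ‖ ^ 2) := by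
    have e1 : (q - 1) * s = (q * s - ρ) - (s - ρ) := by ring
    rw [e1]
    have e2 := norm_sub_le (q * s - ρ) (s - ρ)
    have e3 : ‖(q * s - ρ) - (s - ρ)‖ ^ 2 ≤ (‖q * s - ρ‖ + ‖s - ρ‖) ^ 2 :=
      pow_le_pow_left₀ (norm_nonneg _) e2 2
    nlinarith [sq_nonneg (‖q * s - ρ‖ - ‖s - ρ‖)]
  rw [norm_mul, mul_pow, ← hρ] at k3
  have k4 : ‖q - 1‖ ^ 2 * ρ ^ 2 < 8 * ρ ^ 2 / (J : ℝ) ^ 2 := by
    have : 8 * ρ ^ 2 / (J : ℝ) ^ 2 = 2 * (2 * ρ ^ 2 / (J : ℝ) ^ 2 + 2 * ρ ^ 2 / (J : ℝ) ^ 2) := by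
      ring
    rw [this]
    nlinarith
  have k5 : ‖q - 1‖ ^ 2 < 8 / (J : ℝ) ^ 2 := by
    by_contra hcon
    push Not at hcon
    have : 8 / (J : ℝ) ^ 2 * ρ ^ 2 ≤ ‖q - 1‖ ^ 2 * ρ ^ 2 := by gcongr
    have e1 : 8 / (J : ℝ) ^ 2 * ρ ^ 2 = 8 * ρ ^ 2 / (J : ℝ) ^ 2 := by ring
    linarith
  refine k5.trans ?_
  gcongr
  norm_num

/-- measure of the bad set -/
theorem Bd_measure (g : Fin n → ℂ) {N J : ℕ} (hN : 1 ≤ N) (hJ : 1 ≤ J) (R : ℝ) :
    (J : ℝ≥0∞) * volume (Bd g N J ∩ ball 0 R) ≤ volume (ball (0 : Fin n → ℂ) R) := by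
  have hN0 : (0 : ℝ) < N := by exact_mod_cast hN
  have hJ0 : (0 : ℝ) < J := by exact_mod_cast hJ
  -- the rotations
  set u : ℕ → ℂ := fun j => exp ((2 * Real.pi * j / J / N : ℝ) * I) with hu
  have hun : ∀ j, ‖u j‖ = 1 := fun j => Complex.norm_exp_ofReal_mul_I _
  have huN : ∀ j, u j ^ N = exp ((2 * Real.pi * j / J : ℝ) * I) := by
    intro j
    simp only [hu]
    rw [← Complex.exp_nat_mul]
    congr 1
    push_cast
    have : (N : ℂ) ≠ 0 := by exact_mod_cast hN0.ne'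
    field_simp
  set E : ℕ → Set (Fin n → ℂ) := fun j => (fun z => u j • z) ⁻¹' (Bd g N J ∩ ball 0 R) with hE
  have mB : MeasurableSet (Bd g N J ∩ ball 0 R) := (Bd_open g N J).measurableSet.inter
    measurableSet_ball
  have mE : ∀ j, MeasurableSet (E j) := fun j => (mp_unit (hun j)).measurable mB
  have vE : ∀ j, volume (E j) = volume (Bd g N J ∩ ball 0 R) := fun j =>
    (mp_unit (hun j)).measure_preimage mB.nullMeasurableSet
  have hsub : ∀ j, E j ⊆ ball 0 R := by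
    intro j z hz
    have h1 := hz.2
    rw [mem_ball_zero_iff] at h1 ⊢
    rwa [norm_smul, hun, one_mul] at h1
  have key : ∀ j l, j < l → l < J → Disjoint (E j) (E l) := by
    intro j l hjl hlJ
    rw [Set.disjoint_left]
    intro z hz1 hz2
    have h1 : (1 - 1 / (J : ℝ) ^ 2) * ‖ip g (u j • z) ^ N‖ < (ip g (u j • z) ^ N).re := hz1.1
    have h2 : (1 - 1 / (J : ℝ) ^ 2) * ‖ip g (u l • z) ^ N‖ < (ip g (u l • z) ^ N).re := hz2.1
    set q : ℂ := exp ((2 * Real.pi * ((l - j : ℕ) : ℝ) / J : ℝ) * I) with hq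
    have h3 : ip g (u l • z) ^ N = q * ip g (u j • z) ^ N := by
      rw [ip_smul, ip_smul, mul_pow, mul_pow, huN, huN, ← mul_assoc, hq, ← Complex.exp_add]
      congr 2
      rw [Nat.cast_sub hjl.le]
      push_cast
      ring
    rw [h3] at h2
    have h4 := disj_core rfl hJ (Complex.norm_exp_ofReal_mul_I _) h1 h2
    have h5 := root_dist (J := J) (i := l - j) (by omega) (by omega)
    exact absurd h4 (not_lt.mpr h5)
  have hdisj : (↑(Finset.range J) : Set ℕ).PairwiseDisjoint E := by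
    intro j hj l hl hne
    rw [Finset.mem_coe, Finset.mem_range] at hj hl
    rcases lt_or_gt_of_ne hne with h | h
    · exact key j l h hl
    · exact (key l j h hj).symm
  calc (J : ℝ≥0∞) * volume (Bd g N J ∩ ball 0 R)
      = ∑ j ∈ Finset.range J, volume (E j) := by
        rw [Finset.sum_congr rfl (fun j _ => vE j), Finset.sum_const, Finset.card_range,
          nsmul_eq_mul]
    _ = volume (⋃ j ∈ Finset.range J, E j) := (measure_biUnion_finset hdisj (fun j _ => mE j)).symm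
    _ ≤ _ := by
        apply measure_mono
        intro z hz
        rw [mem_iUnion₂] at hz
        obtain ⟨j, _, hj⟩ := hz
        exact hsub j hj

end Q71.RL
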