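import Pool.Agent.Q71.RL.Poly
import Pool.Agent.Q71.RL.Rot

open MeasureTheory Complex Filter Topology Set Metric
open scoped ENNReal

namespace Q71.RL

variable {n : ℕ}

/-- Euclidean norm -/
noncomputable def en (z : Fin n → ℂ) : ℝ := √(∑ i, ‖z i‖ ^ 2)

lemma en_nonneg (z : Fin n → ℂ) : 0 ≤ en z := Real.sqrt_nonneg _

lemma en_sq (z : Fin n → ℂ) : en z ^ 2 = ∑ i, ‖z i‖ ^ 2 :=
  Real.sq_sqrt (Finset.sum_nonneg fun i _ => by positivity)

lemma en_smul (c : ℂ) (z : Fin n → ℂ) : en (c • z) = ‖c‖ * en z := by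
  unfold en
  rw [show ∑ i, ‖(c • z) i‖ ^ 2 = ‖c‖ ^ 2 * ∑ i, ‖z i‖ ^ 2 by
    rw [Finset.mul_sum]
    apply Finset.sum_congr rfl
    intro i _
    rw [Pi.smul_apply, norm_smul, mul_pow], Real.sqrt_mul (by positivity),
    Real.sqrt_sq (norm_nonneg _)]

lemma cs (g z : Fin n → ℂ) : ‖ip g z‖ ≤ en g * en z := by
  unfold ip en
  calc ‖∑ i, starRingEnd ℂ (g i) * z i‖ ≤ ∑ i, ‖starRingEnd ℂ (g i) * z i‖ := norm_sum_le _ _
    _ = ∑ i, ‖g i‖ * ‖z i‖ := by
        apply Finset.sum_congr rfl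
        intro i _
        rw [norm_mul, RCLike.norm_conj]
    _ ≤ √(∑ i, ‖g i‖ ^ 2) * √(∑ i, ‖z i‖ ^ 2) := Real.sum_mul_le_sqrt_mul_sqrt _ _ _

/-- the grid points -/
noncomputable def gp (K : ℕ) (a : Fin n → Fin (2 * K + 1) × Fin (2 * K + 1)) : Fin n → ℂ :=
  fun i => ⟨(((a i).1 : ℕ) - K : ℝ) / K, (((a i).2 : ℕ) - K : ℝ) / K⟩

open Classical in
/-- grid points, replaced by `0` outside the unit ball -/
noncomputable def gq (K : ℕ) (a : Fin n → Fin (2 * K + 1) × Fin (2 * K + 1)) : Fin n → ℂ :=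
  if en (gp K a) ≤ 1 then gp K a else 0

lemma gq_le (K : ℕ) (a : Fin n → Fin (2 * K + 1) × Fin (2 * K + 1)) : en (gq K a) ≤ 1 := by
  unfold gq
  split_ifs with h
  · exact h
  · have : en (0 : Fin n → ℂ) = 0 := by simp [en]
    rw [this]
    norm_num

/-- one-dimensional rounding towards zero -/
lemma round1 {K : ℕ} (hK : 1 ≤ K) {x : ℝ} (hx : |x| ≤ 1) : ∃ a : Fin (2 * K + 1),
    |((a : ℕ) - K : ℝ) / K| ≤ |x| ∧ |x - ((a : ℕ) - K : ℝ) / K| ≤ 1 / K := by
  have hK0 : (0 : ℝ) < K := by exact_mod_cast hK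
  have key : ∀ y : ℝ, 0 ≤ y → y ≤ 1 → ∃ m : ℕ, m ≤ K ∧ (m : ℝ) / K ≤ y ∧ y - m / K ≤ 1 / K := by
    intro y hy0 hy1
    refine ⟨⌊y * K⌋₊, ?_, ?_, ?_⟩
    · have : y * K ≤ K := by nlinarith
      have h2 := Nat.floor_mono this
      rwa [Nat.floor_natCast] at h2
    · rw [div_le_iff₀ hK0]
      exact Nat.floor_le (by positivity)
    · have h1 := Nat.lt_floor_add_one (y * K)
      rw [sub_le_iff_le_add, ← add_div, le_div_iff₀ hK0]
      linarith
  rcases le_total 0 x with h | h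
  · rw [abs_of_nonneg h] at hx ⊢
    obtain ⟨m, hm, h1, h2⟩ := key x h hx
    refine ⟨⟨K + m, by omega⟩, ?_, ?_⟩
    · push_cast
      rw [add_sub_cancel_left, abs_of_nonneg (by positivity)]
      exact h1
    · push_cast
      rw [add_sub_cancel_left, abs_of_nonneg (by linarith)]
      exact h2
  · rw [abs_of_nonpos h] at hx ⊢
    obtain ⟨m, hm, h1, h2⟩ := key (-x) (by linarith) hx
    have hcast : ((K - m : ℕ) : ℝ) - K = -m := by
      rw [Nat.cast_sub hm]
      ring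
    refine ⟨⟨K - m, by omega⟩, ?_, ?_⟩
    · simp only [hcast]
      rw [neg_div, abs_neg, abs_of_nonneg (by positivity)]
      exact h1
    · simp only [hcast]
      rw [neg_div, sub_neg_eq_add, abs_of_nonpos (by linarith)]
      linarith

/-- approximation of unit vectors by grid points -/
lemma grid {K : ℕ} (hK : 1 ≤ K) {ζ : Fin n → ℂ} (hζ : en ζ = 1) :
    ∃ a : Fin n → Fin (2 * K + 1) × Fin (2 * K + 1), 1 - 2 * n / K ≤ ‖ip (gq K a) ζ‖ := by
  have hK0 : (0 : ℝ) < K := by exact_mod_cast hK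
  have hζ1 : ∀ i, ‖ζ i‖ ≤ 1 := by
    intro i
    have h1 := en_sq ζ
    rw [hζ] at h1
    have h2 : ‖ζ i‖ ^ 2 ≤ ∑ i, ‖ζ i‖ ^ 2 :=
      Finset.single_le_sum (f := fun i => ‖ζ i‖ ^ 2) (fun j _ => by positivity) (Finset.mem_univ i)
    rw [← h1] at h2
    nlinarith [norm_nonneg (ζ i)]
  choose a1 ha1 hb1 using fun i => round1 hK ((Complex.abs_re_le_norm (ζ i)).trans (hζ1 i))
  choose a2 ha2 hb2 using fun i => round1 hK ((Complex.abs_im_le_norm (ζ i)).trans (hζ1 i))
  set a : Fin n → Fin (2 * K + 1) × Fin (2 * K + 1) := fun i => (a1 i, a2 i) with ha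
  set g := gp K a with hg
  have hre : ∀ i, (g i).re = ((a1 i : ℕ) - K : ℝ) / K := fun i => rfl
  have him : ∀ i, (g i).im = ((a2 i : ℕ) - K : ℝ) / K := fun i => rfl
  have hgi : ∀ i, ‖g i‖ ^ 2 ≤ ‖ζ i‖ ^ 2 := by
    intro i
    rw [Complex.sq_norm, Complex.sq_norm, Complex.normSq_apply, Complex.normSq_apply]
    have h1 := sq_le_sq.mpr (ha1 i)
    have h2 := sq_le_sq.mpr (ha2 i)
    rw [← hre] at h1
    rw [← him] at h2
    nlinarith
  have hg1 : en g ≤ 1 := by
    rw [← hζ]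
    unfold en
    exact Real.sqrt_le_sqrt (Finset.sum_le_sum fun i _ => hgi i)
  have hgq : gq K a = g := by
    unfold gq
    rw [if_pos hg1]
  have hdi : ∀ i, ‖ζ i - g i‖ ≤ 2 / K := by
    intro i
    refine (Complex.norm_le_abs_re_add_abs_im _).trans ?_
    rw [Complex.sub_re, Complex.sub_im, hre, him]
    have h1 := hb1 i
    have h2 := hb2 i
    have : 2 / (K : ℝ) = 1 / K + 1 / K := by ring
    linarith
  refine ⟨a, ?_⟩
  rw [hgq]
  -- real part of the inner product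
  have h1 : ip g ζ = ((∑ i, ‖ζ i‖ ^ 2 : ℝ) : ℂ) - ∑ i, starRingEnd ℂ (ζ i - g i) * ζ i := by
    unfold ip
    push_cast
    rw [← Finset.sum_sub_distrib]
    apply Finset.sum_congr rfl
    intro i _
    rw [map_sub, sub_mul, ← Complex.conj_mul' (ζ i)]
    ring
  have h2 : ‖∑ i, starRingEnd ℂ (ζ i - g i) * ζ i‖ ≤ 2 * n / K := by
    calc ‖∑ i, starRingEnd ℂ (ζ i - g i) * ζ i‖ ≤ ∑ i, ‖starRingEnd ℂ (ζ i - g i) * ζ i‖ :=
          norm_sum_le _ _
      _ ≤ ∑ i : Fin n, 2 / (K : ℝ) := by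
          apply Finset.sum_le_sum
          intro i _
          rw [norm_mul, RCLike.norm_conj]
          calc ‖ζ i - g i‖ * ‖ζ i‖ ≤ 2 / K * 1 := by
                gcongr
                · exact hdi i
                · exact hζ1 i
            _ = _ := mul_one _
      _ = 2 * n / K := by
          rw [Finset.sum_const, Finset.card_univ, Fintype.card_fin, nsmul_eq_mul]
          ring
  rw [← en_sq, hζ] at h1
  rw [h1]
  have h3 := norm_sub_norm_le (((1 : ℝ) ^ 2 : ℝ) : ℂ) (∑ i, starRingEnd ℂ (ζ i - g i) * ζ i)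
  simp only [one_pow, Complex.ofReal_one, norm_one] at h3 ⊢
  linarith

/-- Existence of parameters. -/
lemma params (n : ℕ) {ε ρ : ℝ} (hε : 0 < ε) (hρ0 : 0 ≤ ρ) (hρ : ρ < 1) :
    ∃ J N : ℕ, 1 ≤ J ∧ 1 ≤ N ∧ ρ ^ N ≤ 1 / (2048 * (J : ℝ) ^ 4) ∧
      ((2 * (8 * (n + 1) * N) + 1 : ℕ) : ℝ) ^ (2 * n) / J ≤ ε := by
  obtain ⟨A0, hA0⟩ := exists_pow_lt_of_lt_one (show (0 : ℝ) < 1 / 2 by norm_num) hρ
  set A := A0 + 1 with hA
  have hA2 : ρ ^ A ≤ 1 / 2 := by
    rw [hA, pow_succ]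
    have := pow_nonneg hρ0 A0
    nlinarith
  have hlim : Tendsto (fun k : ℕ => ((16 * (n + 1) * A * 11 + 1 : ℕ) : ℝ) ^ (2 * n) * 2 *
      (((k + 1 : ℕ) : ℝ) ^ (2 * n) / 2 ^ (k + 1))) atTop (𝓝 0) := by
    have h1 : Tendsto (fun k : ℕ => ((k : ℝ)) ^ (2 * n) / (2 : ℝ) ^ k) atTop (𝓝 0) :=
      tendsto_pow_const_div_const_pow_of_one_lt (2 * n) (by norm_num)
    have h2 := (tendsto_add_atTop_iff_nat 1).mpr h1
    have h3 := h2.const_mul (((16 * (n + 1) * A * 11 + 1 : ℕ) : ℝ) ^ (2 * n) * 2)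
    rw [mul_zero] at h3
    exact h3
  obtain ⟨k, hk⟩ := (hlim.eventually_le_const hε).exists
  refine ⟨2 ^ k, A * (4 * k + 11), Nat.one_le_two_pow, ?_, ?_, ?_⟩
  · nlinarith
  · rw [pow_mul]
    calc (ρ ^ A) ^ (4 * k + 11) ≤ (1 / 2) ^ (4 * k + 11) :=
          pow_le_pow_left₀ (pow_nonneg hρ0 _) hA2 _
      _ = 1 / (2048 * ((2 ^ k : ℕ) : ℝ) ^ 4) := by
          push_cast
          rw [pow_add, ← pow_mul, one_div_pow, one_div_pow, mul_comm k 4]
          norm_num
  · refine le_trans ?_ hk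
    have h1 : ((2 * (8 * (n + 1) * (A * (4 * k + 11))) + 1 : ℕ) : ℝ) ≤
        ((16 * (n + 1) * A * 11 + 1 : ℕ) : ℝ) * ((k + 1 : ℕ) : ℝ) := by
      norm_cast
      nlinarith [Nat.zero_le ((n + 1) * A * k), Nat.zero_le k]
    calc ((2 * (8 * (n + 1) * (A * (4 * k + 11))) + 1 : ℕ) : ℝ) ^ (2 * n) / ((2 ^ k : ℕ) : ℝ) ≤
        (((16 * (n + 1) * A * 11 + 1 : ℕ) : ℝ) * ((k + 1 : ℕ) : ℝ)) ^ (2 * n) /
          ((2 ^ k : ℕ) : ℝ) := by gcongr
      _ = _ := by
          rw [mul_pow, pow_succ (2 : ℝ) k]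
          push_cast
          field_simp

/-- One stage of the construction. -/
theorem stage (n : ℕ) {ε ρ : ℝ} (hε : 0 < ε) (hε1 : ε ≤ 1) (hρ0 : 0 ≤ ρ) (hρ : ρ < 1) :
    ∃ (G : (Fin n → ℂ) → ℂ) (Bad : Set (Fin n → ℂ)) (r0 : ℝ), r0 < 1 ∧ Differentiable ℂ G ∧
      (∀ z, en z ≤ ρ → ‖G z - 1‖ ≤ ε) ∧
      (∀ R, volume (Bad ∩ ball 0 R) ≤ ENNReal.ofReal ε * volume (ball (0 : Fin n → ℂ) R)) ∧
      (∀ z, ∀ c : ℝ, 0 < c → ((c : ℂ) • z ∈ Bad ↔ z ∈ Bad)) ∧
      (∀ z, z ∉ Bad → en z ≤ 1 → ‖G z‖ ≤ 1 + ε) ∧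
      (∀ z, z ∉ Bad → en z ≤ 1 → r0 ≤ en z → ‖G z‖ ≤ 1 / 2) := by
  obtain ⟨J, N, hJ, hN, hρN, hm⟩ := params n (show 0 < ε / 2 by linarith) hρ0 hρ
  have hJ0 : (0 : ℝ) < J := by exact_mod_cast hJ
  have hN0 : (0 : ℝ) < N := by exact_mod_cast hN
  have hN1 : (1 : ℝ) ≤ N := by exact_mod_cast hN
  obtain ⟨p, hp1, hp2, hp3⟩ := poly J hJ
  set K : ℕ := 8 * (n + 1) * N with hK
  have hK1 : 1 ≤ K := by
    rw [hK]
    nlinarith
  have hK0 : (0 : ℝ) < K := by exact_mod_cast hK1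
  set ι := Fin n → Fin (2 * K + 1) × Fin (2 * K + 1) with hι
  have hcard : (Fintype.card ι : ℝ) = ((2 * K + 1 : ℕ) : ℝ) ^ (2 * n) := by
    show ((Fintype.card (Fin n → Fin (2 * K + 1) × Fin (2 * K + 1)) : ℕ) : ℝ) = _
    rw [Fintype.card_fun, Fintype.card_prod, Fintype.card_fin, Fintype.card_fin]
    push_cast
    rw [← pow_two, ← pow_mul]
  have hmJ : (Fintype.card ι : ℝ) * (1 / J) ≤ ε / 2 := by
    rw [hcard, mul_one_div]
    exact hm
  have hexp : Real.exp ((Fintype.card ι : ℝ) * (1 / J)) ≤ 1 + ε := by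
    have h0 : (0 : ℝ) ≤ (Fintype.card ι : ℝ) * (1 / J) := by positivity
    have h2 := Real.abs_exp_sub_one_le (x := (Fintype.card ι : ℝ) * (1 / J))
      (by rw [abs_of_nonneg h0]; linarith)
    rw [abs_of_nonneg h0] at h2
    have h3 := le_abs_self (Real.exp ((Fintype.card ι : ℝ) * (1 / J)) - 1)
    linarith
  set w : ι → (Fin n → ℂ) → ℂ := fun a z => ip (gq K a) z ^ N with hw
  have hw1 : ∀ a z, ‖w a z‖ ≤ en z ^ N := by
    intro a z
    simp only [hw]
    rw [norm_pow]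
    apply pow_le_pow_left₀ (norm_nonneg _)
    refine (cs _ _).trans ?_
    have := gq_le K a
    have := en_nonneg z
    nlinarith
  refine ⟨fun z => ∏ a : ι, p.eval (w a z), ⋃ a : ι, Bd (gq K a) N J, 1 - 1 / (3 * N), ?_, ?_, ?_,
    ?_, ?_, ?_, ?_⟩
  · have : (0 : ℝ) < 1 / (3 * N) := by positivity
    linarith
  · have hd : ∀ a : ι, Differentiable ℂ (fun z => p.eval (w a z)) := by
      intro a
      have h1 : Differentiable ℂ (w a) := by
        simp only [hw]
        unfold ip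
        fun_prop
      exact p.differentiable.comp h1
    intro z
    classical
    exact (HasFDerivAt.finsetProd (u := Finset.univ) (g := fun (a : ι) z => p.eval (w a z))
      (fun a _ => (hd a z).hasFDerivAt)).differentiableAt
  · intro z hz
    have h1 : ∀ a, ‖p.eval (w a z) - 1‖ ≤ 1 / J := by
      intro a
      apply hp2
      refine (hw1 a z).trans (le_trans ?_ hρN)
      exact pow_le_pow_left₀ (en_nonneg z) hz N
    have h2 := Finset.norm_prod_one_add_sub_one_le (Finset.univ : Finset ι)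
      (fun a => p.eval (w a z) - 1)
    simp only [add_sub_cancel] at h2
    refine h2.trans ?_
    have h3 : ∑ a : ι, ‖p.eval (w a z) - 1‖ ≤ (Fintype.card ι : ℝ) * (1 / J) := by
      calc ∑ a : ι, ‖p.eval (w a z) - 1‖ ≤ ∑ a : ι, (1 / (J : ℝ)) :=
            Finset.sum_le_sum fun a _ => h1 a
        _ = _ := by rw [Finset.sum_const, Finset.card_univ, nsmul_eq_mul]
    have h4 := Real.exp_le_exp.mpr h3
    linarith
  · intro R
    rw [iUnion_inter]
    refine (measure_iUnion_le _).trans ?_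
    rw [tsum_fintype]
    have h1 : ∀ a : ι, volume (Bd (gq K a) N J ∩ ball 0 R) ≤
        ENNReal.ofReal (1 / J) * volume (ball (0 : Fin n → ℂ) R) := by
      intro a
      have h2 := Bd_measure (gq K a) hN hJ R
      have h3 : ENNReal.ofReal (1 / J) = (J : ℝ≥0∞)⁻¹ := by
        rw [one_div, ENNReal.ofReal_inv_of_pos hJ0, ENNReal.ofReal_natCast]
      rw [h3]
      have hJne : (J : ℝ≥0∞) ≠ 0 := by
        have : J ≠ 0 := by omega
        exact_mod_cast this
      rw [← ENNReal.div_eq_inv_mul, ENNReal.le_div_iff_mul_le (Or.inl hJne)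
        (Or.inl (ENNReal.natCast_ne_top J)), mul_comm]
      exact h2
    calc ∑ a : ι, volume (Bd (gq K a) N J ∩ ball 0 R) ≤
        ∑ a : ι, ENNReal.ofReal (1 / J) * volume (ball (0 : Fin n → ℂ) R) :=
          Finset.sum_le_sum fun a _ => h1 a
      _ = ENNReal.ofReal ((Fintype.card ι : ℝ) * (1 / J)) * volume (ball (0 : Fin n → ℂ) R) := by
          rw [Finset.sum_const, Finset.card_univ, nsmul_eq_mul,
            ENNReal.ofReal_mul (by positivity), ENNReal.ofReal_natCast, mul_assoc]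
      _ ≤ _ := by
          gcongr
          linarith
  · intro z c hc
    simp only [mem_iUnion]
    apply exists_congr
    intro a
    show (1 - 1 / (J : ℝ) ^ 2) * ‖ip (gq K a) ((c : ℂ) • z) ^ N‖ <
      (ip (gq K a) ((c : ℂ) • z) ^ N).re ↔ (1 - 1 / (J : ℝ) ^ 2) * ‖ip (gq K a) z ^ N‖ <
      (ip (gq K a) z ^ N).re
    have hcN : (0 : ℝ) < c ^ N := by positivity
    rw [ip_smul, mul_pow, ← Complex.ofReal_pow, norm_mul, Complex.norm_real,
      Real.norm_of_nonneg hcN.le, Complex.re_ofReal_mul]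
    constructor
    · intro h
      by_contra hcon
      push Not at hcon
      have := mul_le_mul_of_nonneg_left hcon hcN.le
      linarith
    · intro h
      have := mul_lt_mul_of_pos_left h hcN
      linarith
  · intro z hz hz1
    have h1 : ∀ a, ‖p.eval (w a z)‖ ≤ 1 + 1 / J := by
      intro a
      apply hp1
      · exact (hw1 a z).trans (pow_le_one₀ (en_nonneg z) hz1)
      · by_contra hcon
        apply hz
        rw [mem_iUnion]
        exact ⟨a, not_le.mp hcon⟩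
    rw [norm_prod]
    calc ∏ a : ι, ‖p.eval (w a z)‖ ≤ ∏ a : ι, (1 + 1 / (J : ℝ)) :=
          Finset.prod_le_prod (fun a _ => norm_nonneg _) (fun a _ => h1 a)
      _ = (1 + 1 / (J : ℝ)) ^ (Fintype.card ι) := by
          rw [Finset.prod_const, Finset.card_univ]
      _ ≤ Real.exp (1 / J) ^ (Fintype.card ι) := by
          apply pow_le_pow_left₀ (by positivity)
          rw [add_comm]
          exact Real.add_one_le_exp _
      _ = Real.exp ((Fintype.card ι : ℝ) * (1 / J)) := by rw [← Real.exp_nat_mul]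
      _ ≤ _ := hexp
  · intro z hz hz1 hzr
    have hr0 : (0 : ℝ) < 1 - 1 / (3 * N) := by
      rw [sub_pos, div_lt_one (by positivity)]
      linarith
    have hen0 : 0 < en z := lt_of_lt_of_le hr0 hzr
    -- the normalized point
    set ζ : Fin n → ℂ := ((en z)⁻¹ : ℂ) • z with hζ
    have hζ1 : en ζ = 1 := by
      rw [hζ, en_smul, norm_inv, Complex.norm_real, Real.norm_of_nonneg hen0.le,
        inv_mul_cancel₀ hen0.ne']
    obtain ⟨a0, ha0⟩ := grid hK1 hζ1
    have hzζ : z = (en z : ℂ) • ζ := by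
      rw [hζ, smul_smul, mul_inv_cancel₀ (by exact_mod_cast hen0.ne'), one_smul]
    have hwz : ‖w a0 z‖ = en z ^ N * ‖ip (gq K a0) ζ‖ ^ N := by
      simp only [hw]
      conv_lhs => rw [hzζ]
      rw [ip_smul, norm_pow, norm_mul, Complex.norm_real, Real.norm_of_nonneg hen0.le, mul_pow]
    have hlow : 1 / 2 ≤ ‖w a0 z‖ := by
      rw [hwz]
      have h1 : (2 : ℝ) / 3 ≤ en z ^ N := by
        calc (2 : ℝ) / 3 = 1 + N * (-(1 / (3 * N))) := by
              field_simp
              norm_num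
          _ ≤ (1 + (-(1 / (3 * N)))) ^ N := by
              apply one_add_mul_le_pow
              have : 1 / (3 * (N : ℝ)) ≤ 1 := by
                rw [div_le_one (by positivity)]
                linarith
              linarith
          _ ≤ en z ^ N := by
              apply pow_le_pow_left₀ (by linarith)
              linarith
      have h2 : (3 : ℝ) / 4 ≤ ‖ip (gq K a0) ζ‖ ^ N := by
        have hKn : 2 * (n : ℝ) / K ≤ 1 / (4 * N) := by
          rw [div_le_div_iff₀ hK0 (by positivity), hK]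
          push_cast
          nlinarith
        calc (3 : ℝ) / 4 = 1 + N * (-(1 / (4 * N))) := by
              field_simp
              norm_num
          _ ≤ (1 + (-(1 / (4 * N)))) ^ N := by
              apply one_add_mul_le_pow
              have : 1 / (4 * (N : ℝ)) ≤ 1 := by
                rw [div_le_one (by positivity)]
                linarith
              linarith
          _ ≤ ‖ip (gq K a0) ζ‖ ^ N := by
              apply pow_le_pow_left₀
              · have : 1 / (4 * (N : ℝ)) ≤ 1 := by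
                  rw [div_le_one (by positivity)]
                  linarith
                linarith
              · linarith
      calc (1 : ℝ) / 2 = 2 / 3 * (3 / 4) := by norm_num
        _ ≤ _ := mul_le_mul h1 h2 (by norm_num) (by positivity)
    have hnb : ∀ a, (w a z).re ≤ (1 - 1 / (J : ℝ) ^ 2) * ‖w a z‖ := by
      intro a
      by_contra hcon
      apply hz
      rw [mem_iUnion]
      exact ⟨a, not_le.mp hcon⟩
    have hwle : ∀ a, ‖w a z‖ ≤ 1 := fun a => (hw1 a z).trans (pow_le_one₀ (en_nonneg z) hz1)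
    have h1 : ∀ a, ‖p.eval (w a z)‖ ≤ 1 + 1 / J := fun a => hp1 _ (hwle a) (hnb a)
    have h0 : ‖p.eval (w a0 z)‖ ≤ 1 / 4 := hp3 _ (hwle a0) (hnb a0) hlow
    classical
    rw [norm_prod, ← Finset.mul_prod_erase Finset.univ (fun a => ‖p.eval (w a z)‖)
      (Finset.mem_univ a0)]
    calc ‖p.eval (w a0 z)‖ * ∏ a ∈ Finset.univ.erase a0, ‖p.eval (w a z)‖
        ≤ 1 / 4 * ∏ a ∈ Finset.univ.erase a0, (1 + 1 / (J : ℝ)) := by
          apply mul_le_mul h0 _ (Finset.prod_nonneg fun a _ => norm_nonneg _) (by norm_num)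
          exact Finset.prod_le_prod (fun a _ => norm_nonneg _) (fun a _ => h1 a)
      _ = 1 / 4 * (1 + 1 / (J : ℝ)) ^ (Finset.univ.erase a0).card := by
          rw [Finset.prod_const]
      _ ≤ 1 / 4 * (1 + 1 / (J : ℝ)) ^ (Fintype.card ι) := by
          gcongr
          · have : (0 : ℝ) < 1 / J := by positivity
            linarith
          · exact Finset.card_le_univ _
      _ ≤ 1 / 4 * Real.exp (1 / J) ^ (Fintype.card ι) := by
          gcongr
          rw [add_comm]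
          exact Real.add_one_le_exp _
      _ = 1 / 4 * Real.exp ((Fintype.card ι : ℝ) * (1 / J)) := by rw [← Real.exp_nat_mul]
      _ ≤ 1 / 4 * (1 + ε) := by gcongr
      _ ≤ 1 / 2 := by linarith

end Q71.RL
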